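import Pool.Agent.helper55.FLD.Spec

/-!
# MP_2e0e07_nt, row fld:CB: the case `n = b`
-/

set_option autoImplicit false

namespace Pool.Agent.FLD

open Matrix Topology Filter

section aux

variable {p : ℕ} [Fact p.Prime] {n F : Type} [Fintype n] [DecidableEq n]
  [NormedField F] [NormedAlgebra ℚ_[p] F]

omit [NormedAlgebra ℚ_[p] F] in
theorem CB_mem {R : Subring (Matrix n n ℚ_[p] × Matrix (Fin 2) (Fin 2) F)}
    (hR : ∀ x, x ∈ R ↔ Integral p x) {z : Matrix n n ℚ_[p] × Matrix (Fin 2) (Fin 2) F}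
    (hz : z ∈ R) : ((0, z.2) : Matrix n n ℚ_[p] × Matrix (Fin 2) (Fin 2) F) ∈ R := by
  rw [hR] at hz ⊢
  refine ⟨fun i j => ?_, fun i j => hz.2 i j⟩
  simp

theorem CB_dv {R : Subring (Matrix n n ℚ_[p] × Matrix (Fin 2) (Fin 2) F)}
    (hR : ∀ x, x ∈ R ↔ Integral p x) {k : ℕ} {z : Matrix n n ℚ_[p] × Matrix (Fin 2) (Fin 2) F}
    (hz : Dv p R k z) :
    Dv p R k ((0, z.2) : Matrix n n ℚ_[p] × Matrix (Fin 2) (Fin 2) F) := by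
  obtain ⟨r, hr, h⟩ := hz
  refine ⟨(0, r.2), CB_mem hR hr, ?_⟩
  rw [h]
  ext i j <;> simp

theorem CB_dv2 {R : Subring (Matrix n n ℚ_[p] × Matrix (Fin 2) (Fin 2) F)}
    (hR : ∀ x, x ∈ R ↔ Integral p x) {k : ℕ} {z : Matrix n n ℚ_[p] × Matrix (Fin 2) (Fin 2) F}
    (hz : Dv p R k (z - 1)) :
    Dv p R k (((1, z.2) : Matrix n n ℚ_[p] × Matrix (Fin 2) (Fin 2) F) - 1) := by
  have h1 := CB_dv hR hz
  have e : ((1, z.2) : Matrix n n ℚ_[p] × Matrix (Fin 2) (Fin 2) F) - 1 = (0, (z - 1).2) := by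
    ext i j <;> simp
  rw [e]
  exact h1

theorem CB_log {R : Subring (Matrix n n ℚ_[p] × Matrix (Fin 2) (Fin 2) F)}
    (hR : ∀ x, x ∈ R ↔ Integral p x) {z Z : Matrix n n ℚ_[p] × Matrix (Fin 2) (Fin 2) F}
    (hz : IsLog p R z Z) :
    IsLog p R ((1, z.2) : Matrix n n ℚ_[p] × Matrix (Fin 2) (Fin 2) F) (0, Z.2) := by
  intro i
  have h1 := CB_dv hR (hz i)
  have e : ((1, z.2) : Matrix n n ℚ_[p] × Matrix (Fin 2) (Fin 2) F) ^ p ^ i - 1 -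
      ((p : ℚ_[p]) ^ i) • ((0, Z.2) : Matrix n n ℚ_[p] × Matrix (Fin 2) (Fin 2) F) =
      (0, (z ^ p ^ i - 1 - ((p : ℚ_[p]) ^ i) • Z).2) := by
    apply Prod.ext
    · simp
    · simp
  rw [e]
  exact h1

theorem CB_tl_smul (hTL : TL_stmt) [CharZero F] (c : ℚ_[p]) (Y : Matrix (Fin 2) (Fin 2) F) :
    tl (c • Y) = c • tl Y := by
  have h1 : ∀ W : Matrix (Fin 2) (Fin 2) F, c • W = (algebraMap ℚ_[p] F c) • W := by
    intro W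
    ext i j
    simp [Algebra.smul_def]
  rw [h1, h1, (hTL F).2.2.2.1]

omit [NormedAlgebra ℚ_[p] F] in
theorem CB_tl_cont : Continuous (tl : Matrix (Fin 2) (Fin 2) F → Matrix (Fin 2) (Fin 2) F) := by
  have h1 : Continuous fun Y : Matrix (Fin 2) (Fin 2) F => Y.trace :=
    Continuous.matrix_trace continuous_id
  have h2 : Continuous fun Y : Matrix (Fin 2) (Fin 2) F =>
      (Y.trace / 2) • (1 : Matrix (Fin 2) (Fin 2) F) := (h1.div_const 2).smul continuous_const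
  exact continuous_id.sub h2

end aux

theorem CB (h1 : LG_stmt) (h2 : RE_stmt) (h3 : TP_stmt) (h4 : AD_stmt) (h5 : BD_stmt)
    (h6 : TL_stmt) (h7 : SP_stmt) : CB_stmt := by
  intro p _ n F _ _ _ _ _ G _ _ _ _ V ρ hV hρ R hR hL hc hΦ hb
  have hF0 : CharZero F := charZero_of_injective_algebraMap (algebraMap ℚ_[p] F).injective
  have hcont : Continuous (V.prod ρ) := hV.prodMk hρ
  obtain ⟨j₀, hj₀, re1, re2⟩ := h2 p (Matrix n n ℚ_[p] × Matrix (Fin 2) (Fin 2) F) R hL G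
    (V.prod ρ) hcont hΦ
  obtain ⟨tp1, tp2, tp3, tp4, tp5⟩ := h3 p (Matrix n n ℚ_[p] × Matrix (Fin 2) (Fin 2) F) R hL hc G
    (V.prod ρ) hΦ
  obtain ⟨t1, t2, t3, t4, t5, t6, t7, t8⟩ := h6 F
  have tz : tl (0 : Matrix (Fin 2) (Fin 2) F) = 0 := t2 0 (by simp)
  have hT0 : (0 : Matrix n n ℚ_[p] × Matrix (Fin 2) (Fin 2) F) ∈ TT p R (V.prod ρ) := by
    refine ⟨R.zero_mem, fun i _ => ⟨1, ?_⟩⟩
    rw [map_one, sub_self, smul_zero, sub_self]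
    exact Dv.zero _
  obtain ⟨k, hk⟩ := h5 p (Matrix (Fin 2) (Fin 2) F)
    ((fun x : Matrix n n ℚ_[p] × Matrix (Fin 2) (Fin 2) F => tl x.2) '' TT p R (V.prod ρ))
    {y | ∃ x ∈ TT p R (V.prod ρ), x.1 = 0 ∧ tl x.2 = y}
    (tp5.image (CB_tl_cont.comp continuous_snd))
    ⟨0, hT0, rfl, tz⟩
    (by
      rintro y ⟨x, hx, hx1, rfl⟩ y' ⟨x', hx', hx1', rfl⟩
      refine ⟨x + x', tp2 x hx x' hx', ?_, ?_⟩
      · rw [Prod.fst_add, hx1, hx1', add_zero]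
      · rw [Prod.snd_add, t3])
    (by
      rintro c hcn y ⟨x, hx, hx1, rfl⟩
      refine ⟨c • x, tp3 c hcn x hx, ?_, ?_⟩
      · rw [Prod.smul_fst, hx1, smul_zero]
      · rw [Prod.smul_snd, CB_tl_smul h6])
    (by
      rintro y ⟨x, hx, rfl⟩
      exact hb x hx)
  refine ⟨j₀ + (k + j₀), fun g hg => ?_⟩
  obtain ⟨Z, hZT, hZ⟩ := re2 (k + j₀) g hg
  obtain ⟨x₁, hx₁, hx₁0, hx₁t⟩ := hk (tl Z.2) ⟨Z, hZT, rfl⟩
  obtain ⟨h, hh⟩ := re1 x₁ hx₁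
  have hfst : ((((p : ℚ_[p]) ^ j₀) • x₁ : Matrix n n ℚ_[p] × Matrix (Fin 2) (Fin 2) F)).1 = 0 := by
    rw [Prod.smul_fst, hx₁0, smul_zero]
  have hlogh := CB_log hR hh
  have hlogg := CB_log hR hZ
  have heq : (V.prod ρ) h = (1, ((V.prod ρ) h).2) := by
    refine (h1 p (Matrix n n ℚ_[p] × Matrix (Fin 2) (Fin 2) F) R hL).2.2.1 _ _
      (((p : ℚ_[p]) ^ j₀) • x₁) (hΦ h) (CB_dv2 hR (hΦ h)) hh ?_
    have e : (((p : ℚ_[p]) ^ j₀) • x₁ : Matrix n n ℚ_[p] × Matrix (Fin 2) (Fin 2) F) =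
        (0, (((p : ℚ_[p]) ^ j₀) • x₁ : Matrix n n ℚ_[p] × Matrix (Fin 2) (Fin 2) F).2) :=
      Prod.ext hfst rfl
    rw [e]
    exact hlogh
  refine ⟨h, congrArg Prod.fst heq, ?_⟩
  have inv1 : ∀ x : G, ρ x * ρ x⁻¹ = 1 := fun x => by rw [← map_mul, mul_inv_cancel, map_one]
  have inv2 : ∀ x : G, ρ x⁻¹ * ρ x = 1 := fun x => by rw [← map_mul, inv_mul_cancel, map_one]
  have hcen := t7 (((p : ℚ_[p]) ^ (k + j₀)) • Z.2) (((p : ℚ_[p]) ^ j₀) • x₁.2) (by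
    rw [CB_tl_smul h6, CB_tl_smul h6, hx₁t, smul_smul, ← pow_add, add_comm j₀ k])
  have key := h4 p (Matrix n n ℚ_[p] × Matrix (Fin 2) (Fin 2) F) R hL.sep hL.abs
    (1, ρ g) (1, ρ g⁻¹) (1, ρ h) (1, ρ h⁻¹)
    (0, ((((p : ℚ_[p]) ^ (k + j₀)) • Z : Matrix n n ℚ_[p] × Matrix (Fin 2) (Fin 2) F)).2)
    (0, ((((p : ℚ_[p]) ^ j₀) • x₁ : Matrix n n ℚ_[p] × Matrix (Fin 2) (Fin 2) F)).2)
    (by rw [Prod.mk_mul_mk, inv1, one_mul]; rfl)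
    (by rw [Prod.mk_mul_mk, inv2, one_mul]; rfl)
    (by rw [Prod.mk_mul_mk, inv1, one_mul]; rfl)
    (by rw [Prod.mk_mul_mk, inv2, one_mul]; rfl)
    (CB_dv2 hR (hΦ g)) (CB_dv2 hR (hΦ g⁻¹)) (CB_dv2 hR (hΦ h)) (CB_dv2 hR (hΦ h⁻¹))
    (CB_mem hR (ppow_smul_mem hZT.1 _)) (CB_mem hR (ppow_smul_mem hx₁.1 _))
    hlogg hlogh
    (by
      intro b
      apply Prod.ext
      · simp
      · exact hcen b.2)
  exact t8 (ρ g) (ρ g⁻¹) (ρ h) (ρ h⁻¹) (inv1 g) (inv1 h) (inv2 h) (by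
    intro b
    exact congrArg Prod.snd (key (0, b)))

end Pool.Agent.FLD
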